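import Pool.Agent.Results.MP_f2148a_nt.AlmostAllK
import Pool.Agent.Results.MP_f2148a_nt.SparseViolations
import Pool.Agent.V11001.KM.Near

/-!
# Hall's conjecture for all `k` near the powers of almost every real number

Let `ν n / log n → ∞`, for example `ν n = n` or `ν n = n !`, and `θ < 1`. (1) For all real `z > 1` outside a set of
Hausdorff dimension at most `(99 / 100) / (1 - θ)`, for all large `|k|` with `| |k| - β z ^ (ν n) | ≤ z ^ (θ ν n)` for some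
`n`, every integral point of `y ^ 2 = x ^ 3 + k` has `|x| > exp (|k| ^ (1 / 10000))`. (2) For `A ≥ 2` and all `z > 1`
outside a set of dimension at most `(A / 4 + 1 / 6) / (1 - θ)`, for all `C > 0` and all large such `k`, the integral points
with `|x| ≤ |k| ^ A` satisfy Hall's inequality `max (|x|, |y|) ≤ C |k| ^ 3`.
-/

set_option autoImplicit false

open Finset Filter Topology

namespace Pool.Agent.Results.MP_f2148a_nt.CurvesNearPowers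

open Pool.Agent.V11001.KM

lemma finite_abs (K : ℝ) : {k : ℤ | |(k : ℝ)| ≤ K}.Finite := by
  apply (Set.finite_Icc (-⌈K⌉) ⌈K⌉).subset
  intro k hk
  have h1 := abs_le.1 (show |(k : ℝ)| ≤ K from hk)
  have h2 := Int.le_ceil K
  constructor
  · have : -(⌈K⌉ : ℝ) ≤ k := by linarith
    exact_mod_cast this
  · have : (k : ℝ) ≤ ⌈K⌉ := by linarith
    exact_mod_cast this

/-- the `k` for which the curve has an integral point with `|x| ≤ exp (|k| ^ (1 / 10000))` -/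
def Exc : Set ℤ := {k | k ≠ 0 ∧ ∃ x y : ℤ, y ^ 2 = x ^ 3 + k ∧ |(x : ℝ)| ≤ Real.exp (|(k : ℝ)| ^ ((1 : ℝ) / 10000))}

/-- the `k` for which the curve has an integral point with `|x| ≤ |k| ^ A` violating Hall's inequality with the
constant `C` -/
def Viol (C A : ℝ) : Set ℤ := {k | k ≠ 0 ∧ ∃ x y : ℤ, y ^ 2 = x ^ 3 + k ∧
  C * |(k : ℝ)| ^ 3 < max |(x : ℝ)| |(y : ℝ)| ∧ |(x : ℝ)| ≤ |(k : ℝ)| ^ A}

lemma count_exc : ∃ M : ℝ, ∀ X : ℝ, 1 ≤ X → {k | k ∈ Exc ∧ |(k : ℝ)| ≤ X}.Finite ∧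
    ({k | k ∈ Exc ∧ |(k : ℝ)| ≤ X}.ncard : ℝ) ≤ M * X ^ ((99 : ℝ) / 100) := by
  obtain ⟨M, hM⟩ := AlmostAllK.result
  refine ⟨M, fun X hX => ?_⟩
  have hfin : {k : ℤ | k ≠ 0 ∧ |(k : ℝ)| ≤ X ∧ ∃ x y : ℤ, y ^ 2 = x ^ 3 + k ∧
      |(x : ℝ)| ≤ Real.exp (X ^ ((1 : ℝ) / 10000))}.Finite := (finite_abs X).subset fun k hk => hk.2.1
  have hsub : {k | k ∈ Exc ∧ |(k : ℝ)| ≤ X} ⊆ {k : ℤ | k ≠ 0 ∧ |(k : ℝ)| ≤ X ∧ ∃ x y : ℤ, y ^ 2 = x ^ 3 + k ∧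
      |(x : ℝ)| ≤ Real.exp (X ^ ((1 : ℝ) / 10000))} := by
    rintro k ⟨⟨hk0, x, y, hxy, hx⟩, hk⟩
    refine ⟨hk0, hk, x, y, hxy, hx.trans (Real.exp_le_exp.2 ?_)⟩
    exact Real.rpow_le_rpow (abs_nonneg _) hk (by norm_num)
  exact ⟨hfin.subset hsub, le_trans (by exact_mod_cast Set.ncard_le_ncard hsub hfin) (hM X hX)⟩

lemma count_viol (C A ε : ℝ) (hC : 0 < C) (hA : 2 ≤ A) (hε : 0 < ε) : ∃ M : ℝ, ∀ X : ℝ, 1 ≤ X →
    {k | k ∈ Viol C A ∧ |(k : ℝ)| ≤ X}.Finite ∧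
    ({k | k ∈ Viol C A ∧ |(k : ℝ)| ≤ X}.ncard : ℝ) ≤ M * X ^ (A / 4 + 1 / 6 + ε) := by
  obtain ⟨M, hM⟩ := SparseViolations.result C A ε hC hA hε
  refine ⟨M, fun X hX => ?_⟩
  have hfin : {k : ℤ | k ≠ 0 ∧ |(k : ℝ)| ≤ X ∧ ∃ x y : ℤ, y ^ 2 = x ^ 3 + k ∧
      C * |(k : ℝ)| ^ 3 < max |(x : ℝ)| |(y : ℝ)| ∧ |(x : ℝ)| ≤ X ^ A}.Finite :=
    (finite_abs X).subset fun k hk => hk.2.1
  have hsub : {k | k ∈ Viol C A ∧ |(k : ℝ)| ≤ X} ⊆ {k : ℤ | k ≠ 0 ∧ |(k : ℝ)| ≤ X ∧ ∃ x y : ℤ,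
      y ^ 2 = x ^ 3 + k ∧ C * |(k : ℝ)| ^ 3 < max |(x : ℝ)| |(y : ℝ)| ∧ |(x : ℝ)| ≤ X ^ A} := by
    rintro k ⟨⟨hk0, x, y, hxy, hv, hx⟩, hk⟩
    exact ⟨hk0, hk, x, y, hxy, hv, hx.trans (Real.rpow_le_rpow (abs_nonneg _) hk (by linarith))⟩
  exact ⟨hfin.subset hsub, le_trans (by exact_mod_cast Set.ncard_le_ncard hsub hfin) (hM X hX)⟩

/-- **Hall's conjecture near powers.** Let `ν n / log n → ∞`, let `B` be a countable set of real numbers and `θ < 1`.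
(1) There is a set `E` of Hausdorff dimension at most `(99 / 100) / (1 - θ)` such that for all `z > 1` outside `E` and all
positive `β` in `B` there is `K₀` such that for all integers `k ≠ 0`, `|k| ≥ K₀`, with
`| |k| - β z ^ (ν n) | ≤ z ^ (θ ν n)` for some `n`, every integral point `(x, y)` of `y ^ 2 = x ^ 3 + k` has
`|x| > exp (|k| ^ (1 / 10000))`.
(2) For every `A ≥ 2` there is a set `E` of Hausdorff dimension at most `(A / 4 + 1 / 6) / (1 - θ)` such that for all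
`z > 1` outside `E`, all `C > 0` and all positive `β` in `B` there is `K₀` such that for all these `k` with `|k| ≥ K₀` the
integral points with `|x| ≤ |k| ^ A` satisfy `max (|x|, |y|) ≤ C |k| ^ 3`. -/
theorem result (ν : ℕ → ℝ) (hν : Fast ν) (B : Set ℝ) (hB : B.Countable) (θ : ℝ) (hθ : θ < 1) :
    (∃ E : Set ℝ, dimH E ≤ ENNReal.ofReal ((99 / 100) / (1 - θ)) ∧ ∀ z : ℝ, 1 < z → z ∉ E → ∀ β ∈ B, 0 < β →
      ∃ K₀ : ℝ, ∀ k : ℤ, k ≠ 0 → K₀ ≤ |(k : ℝ)| → Near ν θ β z |(k : ℝ)| → ∀ x y : ℤ, y ^ 2 = x ^ 3 + k →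
        Real.exp (|(k : ℝ)| ^ ((1 : ℝ) / 10000)) < |(x : ℝ)|) ∧
    (∀ A : ℝ, 2 ≤ A → ∃ E : Set ℝ, dimH E ≤ ENNReal.ofReal ((A / 4 + 1 / 6) / (1 - θ)) ∧
      ∀ z : ℝ, 1 < z → z ∉ E → ∀ C : ℝ, 0 < C → ∀ β ∈ B, 0 < β →
      ∃ K₀ : ℝ, ∀ k : ℤ, k ≠ 0 → K₀ ≤ |(k : ℝ)| → Near ν θ β z |(k : ℝ)| → ∀ x y : ℤ, y ^ 2 = x ^ 3 + k →
        |(x : ℝ)| ≤ |(k : ℝ)| ^ A → max |(x : ℝ)| |(y : ℝ)| ≤ C * |(k : ℝ)| ^ 3) := by
  constructor
  · obtain ⟨M, hM⟩ := count_exc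
    obtain ⟨E, h1, h2⟩ := family_threshold (fun k : ℤ => |(k : ℝ)|) hν (s := 99 / 100) (by norm_num) hθ B hB
      (J := Unit) (fun _ => Exc) (fun _ ε hε => ⟨|M|, fun X hX => ⟨(hM X hX).1, (hM X hX).2.trans (by
        have h3 : M ≤ |M| := le_abs_self M
        have h4 : X ^ ((99 : ℝ) / 100) ≤ X ^ ((99 : ℝ) / 100 + ε) :=
          Real.rpow_le_rpow_of_exponent_le hX (by linarith)
        have h5 : 0 ≤ X ^ ((99 : ℝ) / 100) := Real.rpow_nonneg (by linarith) _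
        exact mul_le_mul h3 h4 h5 (abs_nonneg _))⟩⟩)
    refine ⟨E, h1, fun z hz hzE β hβ hβ0 => ?_⟩
    obtain ⟨K₀, hK⟩ := h2 z hz hzE β hβ hβ0 ()
    refine ⟨K₀, fun k hk0 hk hn x y hxy => ?_⟩
    by_contra hcon
    push Not at hcon
    exact absurd (hK k ⟨hk0, x, y, hxy, hcon⟩ hn) (not_lt.2 hk)
  · intro A hA
    obtain ⟨E, h1, h2⟩ := family_threshold (fun k : ℤ => |(k : ℝ)|) hν (s := A / 4 + 1 / 6) (by positivity) hθ B hB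
      (J := ℕ) (fun i => Viol (1 / ((i : ℝ) + 1)) A) (fun i ε hε => count_viol _ A ε (by positivity) hA hε)
    refine ⟨E, h1, fun z hz hzE C hC β hβ hβ0 => ?_⟩
    obtain ⟨i, hi⟩ := exists_nat_ge (1 / C)
    have hiC : 1 / ((i : ℝ) + 1) ≤ C := by
      rw [div_le_iff₀ (by positivity)]
      rw [div_le_iff₀ hC] at hi
      nlinarith
    obtain ⟨K₀, hK⟩ := h2 z hz hzE β hβ hβ0 i
    refine ⟨K₀, fun k hk0 hk hn x y hxy hx => ?_⟩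
    by_contra hcon
    push Not at hcon
    refine absurd (hK k ⟨hk0, x, y, hxy, lt_of_le_of_lt ?_ hcon, hx⟩ hn) (not_lt.2 hk)
    exact mul_le_mul_of_nonneg_right hiC (by positivity)

end Pool.Agent.Results.MP_f2148a_nt.CurvesNearPowers
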