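import Pool.Agent.Results.MP_f2148a_nt.AlmostAllK
import Pool.Agent.Results.MP_f2148a_nt.SparseViolations
import Pool.Agent.V11312.PW.Classes

/-!
# Hall's conjecture for all `k` near almost every `q`-adic point

Let `q_1, …, q_r` be primes and `σ > 0`; an integer `k` is near the point `α` of the product of the rings `ℤ_(q_l)` (at the
height `T`) if `|k| ≤ T` and `|k - α_l| ≤ T ^ (-σ)` in `ℤ_(q_l)` for all `l`, that is if it belongs to the class of `α_l` modulo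
the least power of `q_l` which is at least `T ^ σ` (for `r σ < 1` there are about `T ^ (1 - r σ)` such `k`). (1) For all `α` outside
a set of Hausdorff dimension at most `(99 / 100) / σ` and all large `T`, for ALL `k ≠ 0` near `α` every integral point of
`y ^ 2 = x ^ 3 + k` has `|x| > exp (|k| ^ (1 / 10000))`. (2) For `A ≥ 2` and all `α` outside a set of Hausdorff dimension at most
`(A / 4 + 1 / 6) / σ`, for every `C > 0`, all large `T` and ALL `k ≠ 0` near `α`, the integral points with `|x| ≤ |k| ^ A`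
satisfy Hall's inequality `max (|x|, |y|) ≤ C |k| ^ 3`. (3) For `A = 2 + η` with small `η` and one prime this holds for residue
classes modulo powers of the size `T ^ σ`, any `σ > 2 / 3`.
-/

set_option autoImplicit false

open Filter Topology

namespace Pool.Agent.Results.MP_f2148a_nt.IntegersInResidueClasses

open Pool.Agent.V11312.PW

/-- For all large `T` and all integers `k ≠ 0` near `α` every integral point of `y ^ 2 = x ^ 3 + k` has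
`|x| > exp (|k| ^ (1 / 10000))`. -/
def NoSmallPoints {r : ℕ} (q : Fin r → ℕ) [∀ l, Fact (q l).Prime] (σ : ℝ) (α : ∀ l, ℤ_[q l]) : Prop :=
  ∃ T₀ : ℝ, ∀ T ≥ T₀, ∀ k : ℤ, k ≠ 0 → Near q σ T α k → ∀ x y : ℤ, y ^ 2 = x ^ 3 + k →
    Real.exp (|(k : ℝ)| ^ ((1 : ℝ) / 10000)) < |(x : ℝ)|

/-- For all `C > 0`, all large `T` and all integers `k ≠ 0` near `α` the integral points of `y ^ 2 = x ^ 3 + k` with
`|x| ≤ |k| ^ A` satisfy `max (|x|, |y|) ≤ C |k| ^ 3`. -/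
def Hall (A : ℝ) {r : ℕ} (q : Fin r → ℕ) [∀ l, Fact (q l).Prime] (σ : ℝ) (α : ∀ l, ℤ_[q l]) : Prop :=
  ∀ C : ℝ, 0 < C → ∃ T₀ : ℝ, ∀ T ≥ T₀, ∀ k : ℤ, k ≠ 0 → Near q σ T α k → ∀ x y : ℤ, y ^ 2 = x ^ 3 + k →
    |(x : ℝ)| ≤ |(k : ℝ)| ^ A → max |(x : ℝ)| |(y : ℝ)| ≤ C * |(k : ℝ)| ^ 3

lemma finite_abs (K : ℝ) : {k : ℤ | |(k : ℝ)| ≤ K}.Finite := by
  apply (Set.finite_Icc (-⌈K⌉) ⌈K⌉).subset
  intro k hk
  have h1 := abs_le.1 (show |(k : ℝ)| ≤ K from hk)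
  have h2 := Int.le_ceil K
  constructor
  · have : -(⌈K⌉ : ℝ) ≤ k := by linarith
    exact_mod_cast this
  · have : (k : ℝ) ≤ ⌈K⌉ := by linarith
    exact_mod_cast this

/-- **Theorem.** Let `q_1, …, q_r` be primes and `σ > 0`. (1) For all points `α` of the product of the `ℤ_(q_l)` outside a set of
Hausdorff dimension at most `(99 / 100) / σ` and all large `T`, for ALL integers `k ≠ 0` near `α` every integral point `(x, y)` of
`y ^ 2 = x ^ 3 + k` has `|x| > exp (|k| ^ (1 / 10000))`. (2) For every `A ≥ 2`, for all `α` outside a set of Hausdorff dimension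
at most `(A / 4 + 1 / 6) / σ`, all `C > 0` and all large `T`, for ALL `k ≠ 0` near `α` the integral points of
`y ^ 2 = x ^ 3 + k` with `|x| ≤ |k| ^ A` satisfy `max (|x|, |y|) ≤ C |k| ^ 3`. (3) If `r = 1`, `2 ≤ A < 10 / 3` and
`A / 4 + 1 / 6 < σ < 1` the set in (2) has dimension less than one; for `r = 1` and `99 / 100 < σ < 1` the set in (1) has dimension
less than one. -/
theorem result :
    (∀ (r : ℕ) (q : Fin r → ℕ) [∀ l, Fact (q l).Prime] (σ : ℝ), 0 < σ →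
      (∃ E : Set (∀ l, ℤ_[q l]), dimH E ≤ ENNReal.ofReal ((99 / 100) / σ) ∧ ∀ α ∉ E, NoSmallPoints q σ α) ∧
      (∀ A : ℝ, 2 ≤ A → ∃ E : Set (∀ l, ℤ_[q l]), dimH E ≤ ENNReal.ofReal ((A / 4 + 1 / 6) / σ) ∧
        ∀ α ∉ E, Hall A q σ α)) ∧
    (∀ (q : Fin 1 → ℕ) [∀ l, Fact (q l).Prime] (σ : ℝ), σ < 1 →
      (99 / 100 < σ → ∃ E : Set (∀ l, ℤ_[q l]), dimH E < 1 ∧ ∀ α ∉ E, NoSmallPoints q σ α) ∧
      (∀ A : ℝ, 2 ≤ A → A / 4 + 1 / 6 < σ → ∃ E : Set (∀ l, ℤ_[q l]), dimH E < 1 ∧ ∀ α ∉ E, Hall A q σ α)) := by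
  classical
  have main : ∀ (r : ℕ) (q : Fin r → ℕ) [∀ l, Fact (q l).Prime] (σ : ℝ), 0 < σ →
      (∃ E : Set (∀ l, ℤ_[q l]), dimH E ≤ ENNReal.ofReal ((99 / 100) / σ) ∧ ∀ α ∉ E, NoSmallPoints q σ α) ∧
      (∀ A : ℝ, 2 ≤ A → ∃ E : Set (∀ l, ℤ_[q l]), dimH E ≤ ENNReal.ofReal ((A / 4 + 1 / 6) / σ) ∧
        ∀ α ∉ E, Hall A q σ α) := by
    intro r q _ σ hσ
    constructor
    · obtain ⟨M, hM⟩ := Pool.Agent.Results.MP_f2148a_nt.AlmostAllK.result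
      obtain ⟨E, hE1, hE2⟩ := int_classes' (ι := Unit)
        (fun _ => {k : ℤ | k ≠ 0 ∧ ∃ x y : ℤ, y ^ 2 = x ^ 3 + k ∧
          |(x : ℝ)| ≤ Real.exp (|(k : ℝ)| ^ ((1 : ℝ) / 10000))}) (s := 99 / 100) (by norm_num) (fun _ ε hε => by
          refine add_eps (M := M) (fun X hX => ?_) hε
          have hfin : {k : ℤ | k ≠ 0 ∧ |(k : ℝ)| ≤ X ∧ ∃ x y : ℤ, y ^ 2 = x ^ 3 + k ∧
              |(x : ℝ)| ≤ Real.exp (X ^ ((1 : ℝ) / 10000))}.Finite :=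
            (finite_abs X).subset fun k hk => hk.2.1
          refine le_trans ?_ (hM X hX)
          have hsub : {k : ℤ | k ∈ {k : ℤ | k ≠ 0 ∧ ∃ x y : ℤ, y ^ 2 = x ^ 3 + k ∧
              |(x : ℝ)| ≤ Real.exp (|(k : ℝ)| ^ ((1 : ℝ) / 10000))} ∧ |(k : ℝ)| ≤ X} ⊆
              {k : ℤ | k ≠ 0 ∧ |(k : ℝ)| ≤ X ∧ ∃ x y : ℤ, y ^ 2 = x ^ 3 + k ∧
              |(x : ℝ)| ≤ Real.exp (X ^ ((1 : ℝ) / 10000))} := by
            rintro k ⟨⟨hk0, x, y, hxy, hx⟩, hk⟩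
            refine ⟨hk0, hk, x, y, hxy, hx.trans ?_⟩
            apply Real.exp_le_exp.2
            exact Real.rpow_le_rpow (abs_nonneg _) hk (by norm_num)
          exact_mod_cast Set.ncard_le_ncard hsub hfin)
        q hσ
      refine ⟨E, hE1, fun α hα => ?_⟩
      obtain ⟨T₀, hT⟩ := hE2 α hα ()
      refine ⟨T₀, fun T hTT k hk0 hk x y hxy => ?_⟩
      by_contra hcon
      push Not at hcon
      exact hT T hTT k hk ⟨hk0, x, y, hxy, hcon⟩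
    · intro A hA
      obtain ⟨E, hE1, hE2⟩ := int_classes' (ι := ℕ)
        (fun i => {k : ℤ | k ≠ 0 ∧ ∃ x y : ℤ, y ^ 2 = x ^ 3 + k ∧
          1 / ((i : ℝ) + 1) * |(k : ℝ)| ^ 3 < max |(x : ℝ)| |(y : ℝ)| ∧ |(x : ℝ)| ≤ |(k : ℝ)| ^ A})
        (s := A / 4 + 1 / 6) (by positivity) (fun i ε hε => by
          obtain ⟨M, hM⟩ := Pool.Agent.Results.MP_f2148a_nt.SparseViolations.result (1 / ((i : ℝ) + 1)) A ε
            (by positivity) hA hε
          refine ⟨M, fun X hX => le_trans ?_ (hM X hX)⟩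
          have hfin : {k : ℤ | k ≠ 0 ∧ |(k : ℝ)| ≤ X ∧ ∃ x y : ℤ, y ^ 2 = x ^ 3 + k ∧
              1 / ((i : ℝ) + 1) * |(k : ℝ)| ^ 3 < max |(x : ℝ)| |(y : ℝ)| ∧ |(x : ℝ)| ≤ X ^ A}.Finite :=
            (finite_abs X).subset fun k hk => hk.2.1
          have hsub : {k : ℤ | k ∈ {k : ℤ | k ≠ 0 ∧ ∃ x y : ℤ, y ^ 2 = x ^ 3 + k ∧
              1 / ((i : ℝ) + 1) * |(k : ℝ)| ^ 3 < max |(x : ℝ)| |(y : ℝ)| ∧ |(x : ℝ)| ≤ |(k : ℝ)| ^ A} ∧
              |(k : ℝ)| ≤ X} ⊆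
              {k : ℤ | k ≠ 0 ∧ |(k : ℝ)| ≤ X ∧ ∃ x y : ℤ, y ^ 2 = x ^ 3 + k ∧
              1 / ((i : ℝ) + 1) * |(k : ℝ)| ^ 3 < max |(x : ℝ)| |(y : ℝ)| ∧ |(x : ℝ)| ≤ X ^ A} := by
            rintro k ⟨⟨hk0, x, y, hxy, hC, hx⟩, hk⟩
            exact ⟨hk0, hk, x, y, hxy, hC, hx.trans (Real.rpow_le_rpow (abs_nonneg _) hk (by linarith))⟩
          exact_mod_cast Set.ncard_le_ncard hsub hfin)
        q hσ
      refine ⟨E, hE1, fun α hα C hC => ?_⟩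
      obtain ⟨i, hi⟩ := exists_nat_ge (1 / C)
      have hiC : 1 / ((i : ℝ) + 1) ≤ C := by
        rw [div_le_iff₀ (by positivity)]
        rw [div_le_iff₀ hC] at hi
        nlinarith
      obtain ⟨T₀, hT⟩ := hE2 α hα i
      refine ⟨T₀, fun T hTT k hk0 hk x y hxy hx => ?_⟩
      by_contra hcon
      push Not at hcon
      exact hT T hTT k hk ⟨hk0, x, y, hxy, lt_of_le_of_lt (mul_le_mul_of_nonneg_right hiC (by positivity)) hcon, hx⟩
  refine ⟨main, fun q _ σ hσ1 => ⟨fun h => ?_, fun A hA h => ?_⟩⟩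
  · have hσ : 0 < σ := by linarith
    obtain ⟨E, h1, h2⟩ := (main 1 q σ hσ).1
    refine ⟨E, h1.trans_lt ?_, h2⟩
    rw [← ENNReal.ofReal_one, ENNReal.ofReal_lt_ofReal_iff one_pos, div_lt_one hσ]
    exact h
  · have hσ : 0 < σ := by linarith
    obtain ⟨E, h1, h2⟩ := (main 1 q σ hσ).2 A hA
    refine ⟨E, h1.trans_lt ?_, h2⟩
    rw [← ENNReal.ofReal_one, ENNReal.ofReal_lt_ofReal_iff one_pos, div_lt_one hσ]
    exact h

end Pool.Agent.Results.MP_f2148a_nt.IntegersInResidueClasses
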