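import Pool.Agent.Results.MP_f2148a_nt.AlmostAllK
import Pool.Agent.Results.MP_f2148a_nt.SparseViolations
import Pool.Agent.V11326.WZ

/-!
# Hall's conjecture for all `k` in windows around a thin sequence

Let `v ≥ 1` be a sequence with exponent of convergence at most `τ` (for `v_n = b ^ n` it is `0`, for `v_n = n ^ a` it is
`1 / a`) and `θ < 1`. (1) For all `α > 0` outside a set of Hausdorff dimension at most `(99 / 100 + τ) / (1 - θ)` and all but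
finitely many `n`, for ALL integers `k ≠ 0` with `| |k| - α v_n | ≤ v_n ^ θ` every integral point of `y ^ 2 = x ^ 3 + k` has
`|x| > exp (|k| ^ ρ)`, for each `ρ < 1 / 10000`. (2) For `A ≥ 2` and all `α > 0` outside a set of Hausdorff dimension at most
`(A / 4 + 1 / 6 + τ) / (1 - θ)`, for every `C > 0`, all but finitely many `n` and ALL these `k`, the integral points with
`|x| ≤ |k| ^ A` satisfy Hall's inequality `max (|x|, |y|) ≤ C |k| ^ 3`.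
-/

set_option autoImplicit false

open Finset Filter Topology

namespace Pool.Agent.Results.MP_f2148a_nt.WindowsWithoutPoints

/-- the exponent of convergence of the sequence `v` is at most `τ` -/
def ExpLe (v : ℕ → ℝ) (τ : ℝ) : Prop := ∀ t : ℝ, τ < t → Summable (fun n : ℕ => (v n) ^ (-t))

lemma finite_abs (K : ℝ) : {k : ℤ | |(k : ℝ)| ≤ K}.Finite := by
  apply (Set.finite_Icc (-⌈K⌉) ⌈K⌉).subset
  intro k hk
  have h1 := abs_le.1 (show |(k : ℝ)| ≤ K from hk)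
  have h2 := Int.le_ceil K
  constructor
  · have : -(⌈K⌉ : ℝ) ≤ k := by linarith
    exact_mod_cast this
  · have : (k : ℝ) ≤ ⌈K⌉ := by linarith
    exact_mod_cast this

/-- **Theorem.** Let `v ≥ 1` be a sequence of exponent of convergence at most `τ ≥ 0` and `θ < 1`. (1) There is a set `E` of
Hausdorff dimension at most `(99 / 100 + τ) / (1 - θ)` such that for each `α > 0` outside `E`, each `ρ < 1 / 10000` and all
but finitely many `n`: for ALL integers `k ≠ 0` with `| |k| - α v_n | ≤ v_n ^ θ` every integral point `(x, y)` of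
`y ^ 2 = x ^ 3 + k` has `|x| > exp (|k| ^ ρ)`. (2) For every `A ≥ 2` there is a set `E` of Hausdorff dimension at most
`(A / 4 + 1 / 6 + τ) / (1 - θ)` such that for each `α > 0` outside `E`, each `C > 0` and all but finitely many `n`: for ALL
integers `k ≠ 0` with `| |k| - α v_n | ≤ v_n ^ θ` the integral points of `y ^ 2 = x ^ 3 + k` with `|x| ≤ |k| ^ A` satisfy
`max (|x|, |y|) ≤ C |k| ^ 3`. (3) The sequences `v_n = (n + 1) ^ a` and `v_n = b ^ n` have exponent of convergence at most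
`1 / a` and `0`. -/
theorem result :
    (∀ (v : ℕ → ℝ) (τ θ : ℝ), (∀ n, 1 ≤ v n) → 0 ≤ τ → ExpLe v τ → θ < 1 →
      (∃ E : Set ℝ, dimH E ≤ ENNReal.ofReal ((99 / 100 + τ) / (1 - θ)) ∧
        ∀ α : ℝ, 0 < α → α ∉ E → ∀ ρ : ℝ, 0 ≤ ρ → ρ < 1 / 10000 → ∃ n₀ : ℕ, ∀ n : ℕ, n₀ ≤ n →
          ∀ k : ℤ, k ≠ 0 → |(|(k : ℝ)|) - α * v n| ≤ (v n) ^ θ → ∀ x y : ℤ, y ^ 2 = x ^ 3 + k →
            Real.exp (|(k : ℝ)| ^ ρ) < |(x : ℝ)|) ∧
      (∀ A : ℝ, 2 ≤ A → ∃ E : Set ℝ, dimH E ≤ ENNReal.ofReal ((A / 4 + 1 / 6 + τ) / (1 - θ)) ∧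
        ∀ α : ℝ, 0 < α → α ∉ E → ∀ C : ℝ, 0 < C → ∃ n₀ : ℕ, ∀ n : ℕ, n₀ ≤ n →
          ∀ k : ℤ, k ≠ 0 → |(|(k : ℝ)|) - α * v n| ≤ (v n) ^ θ → ∀ x y : ℤ, y ^ 2 = x ^ 3 + k →
            |(x : ℝ)| ≤ |(k : ℝ)| ^ A → max |(x : ℝ)| |(y : ℝ)| ≤ C * |(k : ℝ)| ^ 3)) ∧
    (∀ a : ℝ, 0 < a → ExpLe (fun n : ℕ => ((n : ℝ) + 1) ^ a) (1 / a)) ∧
    (∀ b : ℝ, 1 < b → ExpLe (fun n : ℕ => b ^ n) 0) := by
  classical
  refine ⟨?_, fun κ hκ => Pool.Agent.Y854.GM.expLe_pow κ hκ, fun b hb => Pool.Agent.Y854.GM.expLe_geom b hb⟩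
  intro v τ θ hv hτ hE hθ1
  have htv : Tendsto v atTop atTop :=
    Pool.Agent.Y854.GM.tendsto_of_expLe (fun k => lt_of_lt_of_le one_pos (hv k)) hτ hE
  constructor
  · obtain ⟨M, hM⟩ := Pool.Agent.Results.MP_f2148a_nt.AlmostAllK.result
    obtain ⟨E, hE1, hE2⟩ := Pool.Agent.Y854.GM.windowsV
      (fun n => {k : ℤ | k ≠ 0 ∧ ∃ x y : ℤ, y ^ 2 = x ^ 3 + k ∧ |(x : ℝ)| ≤ Real.exp ((v n) ^ ((1 : ℝ) / 10000))})
      (fun _ (k : ℤ) => |(k : ℝ)|) (v := v) (s := 99 / 100) (τ := τ) (θ := θ) 1 hv hτ hE (by norm_num) hθ1 (by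
        intro A ε hε
        refine ⟨|M| * ((A : ℝ) + 1) ^ ((99 : ℝ) / 100), 0, fun n _ => ?_⟩
        have h1 := hv n
        have h2 : (0 : ℝ) ≤ A := Nat.cast_nonneg A
        have hK : v n ≤ ((A : ℝ) + 1) * v n := by nlinarith
        have key := hM (((A : ℝ) + 1) * v n) (h1.trans hK)
        have hfin : {k : ℤ | k ≠ 0 ∧ |(k : ℝ)| ≤ ((A : ℝ) + 1) * v n ∧ ∃ x y : ℤ, y ^ 2 = x ^ 3 + k ∧
            |(x : ℝ)| ≤ Real.exp ((((A : ℝ) + 1) * v n) ^ ((1 : ℝ) / 10000))}.Finite :=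
          (finite_abs (((A : ℝ) + 1) * v n)).subset fun k hk => hk.2.1
        have hsub : {k : ℤ | k ∈ {k : ℤ | k ≠ 0 ∧ ∃ x y : ℤ, y ^ 2 = x ^ 3 + k ∧
            |(x : ℝ)| ≤ Real.exp ((v n) ^ ((1 : ℝ) / 10000))} ∧ |(k : ℝ)| ≤ ((A : ℝ) + 1) * v n} ⊆
            {k : ℤ | k ≠ 0 ∧ |(k : ℝ)| ≤ ((A : ℝ) + 1) * v n ∧ ∃ x y : ℤ, y ^ 2 = x ^ 3 + k ∧
            |(x : ℝ)| ≤ Real.exp ((((A : ℝ) + 1) * v n) ^ ((1 : ℝ) / 10000))} := by
          rintro k ⟨⟨hk0, x, y, hxy, hx⟩, hk⟩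
          refine ⟨hk0, hk, x, y, hxy, hx.trans ?_⟩
          apply Real.exp_le_exp.2
          exact Real.rpow_le_rpow (by linarith) hK (by norm_num)
        refine ⟨hfin.subset hsub, le_trans (by exact_mod_cast Set.ncard_le_ncard hsub hfin) (key.trans ?_)⟩
        have h3 : M ≤ |M| := le_abs_self M
        have h4 : (0 : ℝ) ≤ (((A : ℝ) + 1) * v n) ^ ((99 : ℝ) / 100) := Real.rpow_nonneg (by positivity) _
        calc M * (((A : ℝ) + 1) * v n) ^ ((99 : ℝ) / 100) ≤ |M| * (((A : ℝ) + 1) * v n) ^ ((99 : ℝ) / 100) :=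
              mul_le_mul_of_nonneg_right h3 h4
          _ = |M| * ((A : ℝ) + 1) ^ ((99 : ℝ) / 100) * (v n) ^ ((99 : ℝ) / 100) := by
              rw [Real.mul_rpow (by positivity) (by linarith), ← mul_assoc]
          _ ≤ |M| * ((A : ℝ) + 1) ^ ((99 : ℝ) / 100) * (v n) ^ ((99 : ℝ) / 100 + ε) := by
              apply mul_le_mul_of_nonneg_left _ (by positivity)
              exact Real.rpow_le_rpow_of_exponent_le h1 (by linarith))
    refine ⟨E, hE1, fun α hα hαE ρ hρ0 hρ => ?_⟩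
    obtain ⟨n₀, hn⟩ := hE2 α hα hαE
    have h1 : ∀ᶠ n : ℕ in atTop, ((α + 1) * v n) ^ ρ ≤ (v n) ^ ((1 : ℝ) / 10000) := by
      have h2 : Tendsto (fun n => (v n) ^ ((1 : ℝ) / 10000 - ρ)) atTop atTop :=
        (tendsto_rpow_atTop (by linarith)).comp htv
      filter_upwards [h2.eventually_ge_atTop ((α + 1) ^ ρ)] with n hn1
      have hv0 : 0 < v n := lt_of_lt_of_le one_pos (hv n)
      rw [Real.mul_rpow (by positivity) hv0.le]
      calc (α + 1) ^ ρ * (v n) ^ ρ ≤ (v n) ^ ((1 : ℝ) / 10000 - ρ) * (v n) ^ ρ :=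
            mul_le_mul_of_nonneg_right hn1 (Real.rpow_nonneg hv0.le _)
        _ = (v n) ^ ((1 : ℝ) / 10000) := by
            rw [← Real.rpow_add hv0]
            congr 1
            ring
    obtain ⟨n₁, hn₁⟩ := eventually_atTop.1 h1
    refine ⟨max n₀ n₁, fun n hn2 k hk0 hw x y hxy => ?_⟩
    by_contra hcon
    push Not at hcon
    have h3 : |(k : ℝ)| ≤ (α + 1) * v n := Pool.Agent.V11326.WZ.le_of_window (hv n) hθ1 hw
    have h4 : |(k : ℝ)| ^ ρ ≤ (v n) ^ ((1 : ℝ) / 10000) :=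
      (Real.rpow_le_rpow (abs_nonneg _) h3 hρ0).trans (hn₁ n ((le_max_right _ _).trans hn2))
    have h5 := hn n ((le_max_left _ _).trans hn2) k ⟨hk0, x, y, hxy, hcon.trans (Real.exp_le_exp.2 h4)⟩
    rw [one_mul] at h5
    exact absurd hw (not_le.2 h5)
  · intro A hA
    obtain ⟨E, hE1, hE2⟩ := Pool.Agent.V11326.WZ.windowsC
      (fun i _ => {k : ℤ | k ≠ 0 ∧ ∃ x y : ℤ, y ^ 2 = x ^ 3 + k ∧
        1 / ((i : ℝ) + 1) * |(k : ℝ)| ^ 3 < max |(x : ℝ)| |(y : ℝ)| ∧ |(x : ℝ)| ≤ |(k : ℝ)| ^ A})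
      (fun k : ℤ => |(k : ℝ)|) (v := v) (s := A / 4 + 1 / 6) (τ := τ) (θ := θ) 1 hv hτ hE (by positivity) hθ1 (by
        intro i B ε hε
        obtain ⟨M, hM⟩ := Pool.Agent.Results.MP_f2148a_nt.SparseViolations.result (1 / ((i : ℝ) + 1)) A ε
          (by positivity) hA hε
        refine ⟨M * ((B : ℝ) + 1) ^ (A / 4 + 1 / 6 + ε), 0, fun n _ => ?_⟩
        have h1 := hv n
        have h2 : (0 : ℝ) ≤ B := Nat.cast_nonneg B
        have key := hM (((B : ℝ) + 1) * v n) (by nlinarith)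
        have hfin : {k : ℤ | k ≠ 0 ∧ |(k : ℝ)| ≤ ((B : ℝ) + 1) * v n ∧ ∃ x y : ℤ, y ^ 2 = x ^ 3 + k ∧
            1 / ((i : ℝ) + 1) * |(k : ℝ)| ^ 3 < max |(x : ℝ)| |(y : ℝ)| ∧
            |(x : ℝ)| ≤ (((B : ℝ) + 1) * v n) ^ A}.Finite :=
          (finite_abs (((B : ℝ) + 1) * v n)).subset fun k hk => hk.2.1
        have hsub : {k : ℤ | k ∈ {k : ℤ | k ≠ 0 ∧ ∃ x y : ℤ, y ^ 2 = x ^ 3 + k ∧
            1 / ((i : ℝ) + 1) * |(k : ℝ)| ^ 3 < max |(x : ℝ)| |(y : ℝ)| ∧ |(x : ℝ)| ≤ |(k : ℝ)| ^ A} ∧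
            |(k : ℝ)| ≤ ((B : ℝ) + 1) * v n} ⊆
            {k : ℤ | k ≠ 0 ∧ |(k : ℝ)| ≤ ((B : ℝ) + 1) * v n ∧ ∃ x y : ℤ, y ^ 2 = x ^ 3 + k ∧
            1 / ((i : ℝ) + 1) * |(k : ℝ)| ^ 3 < max |(x : ℝ)| |(y : ℝ)| ∧
            |(x : ℝ)| ≤ (((B : ℝ) + 1) * v n) ^ A} := by
          rintro k ⟨⟨hk0, x, y, hxy, hC, hx⟩, hk⟩
          exact ⟨hk0, hk, x, y, hxy, hC, hx.trans (Real.rpow_le_rpow (abs_nonneg _) hk (by linarith))⟩
        refine ⟨hfin.subset hsub, le_trans (by exact_mod_cast Set.ncard_le_ncard hsub hfin) (key.trans ?_)⟩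
        rw [Real.mul_rpow (by positivity) (by linarith), ← mul_assoc])
    refine ⟨E, hE1, fun α hα hαE C hC => ?_⟩
    obtain ⟨i, hi⟩ := exists_nat_ge (1 / C)
    have hiC : 1 / ((i : ℝ) + 1) ≤ C := by
      rw [div_le_iff₀ (by positivity)]
      rw [div_le_iff₀ hC] at hi
      nlinarith
    obtain ⟨n₀, hn⟩ := hE2 α hα hαE i
    refine ⟨n₀, fun n hn2 k hk0 hw x y hxy hx => ?_⟩
    by_contra hcon
    push Not at hcon
    have h5 := hn n hn2 k ⟨hk0, x, y, hxy, lt_of_le_of_lt ?_ hcon, hx⟩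
    · rw [one_mul] at h5
      exact absurd hw (not_le.2 h5)
    · exact mul_le_mul_of_nonneg_right hiC (by positivity)

end Pool.Agent.Results.MP_f2148a_nt.WindowsWithoutPoints
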